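import Pool.Agent.X112.GS.Fin

/-!
# No spacing of the zeros of zeta is a monotone function of an earlier one

Let `0 < γ_1 ≤ γ_2 ≤ …` be the ordinates of the nontrivial zeros of the zeta function, with
multiplicity, `y_n = γ_n log γ_n / 2π` the unfolded ordinates and `x_n = y_{n+1} - y_n` the
normalised spacings (mean value one).  No hypothesis is assumed.  The conjecture on the `k`-level
correlations says in particular that the joint law of two spacings has a density.  We prove
that the joint law of `x_n` and `x_{n+k}` is not carried by the graph of a monotone function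
(increasing, continuous or not; or decreasing and Lipschitz): there is `ε > 0` such that for all
large `N` and every such `f`, `|x_{n+k} - f(x_n)| ≥ ε` for at least `ε N` of the `n ≤ N`.
The function may depend on `N`.

Idea of the proof.  The sums of `r` consecutive spacings are not concentrated (their fluctuations
tend to infinity with `r`, by Selberg's method) whereas they are `r + o(r)` for most `n`; hence for
no `Q` the spacings are approximately `Q`-periodic for most `n`.  If `x_{n+k}` is mostly near `f(x_n)`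
with `f` nondecreasing, an argument on the crossings of levels (the orbits of a monotone map cannot
go up and come back) shows that `x_{n+k}` is mostly near `x_n`; for decreasing Lipschitz `f` one takes
the square.
-/

set_option autoImplicit false

open Filter Finset

namespace Pool.Agent.Results.MP_67227b_nt.NoMonotonePrediction

/-- multiplicity of `s` as a zero of the Riemann zeta function (order of vanishing at `s`) -/
noncomputable def zmult (s : ℂ) : ℕ := analyticOrderNatAt riemannZeta s

/-- the number of nontrivial zeros of `ζ` with ordinate in `(0, t]`, with multiplicity -/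
noncomputable def NZ (t : ℝ) : ℕ :=
  ∑ᶠ s ∈ {s : ℂ | riemannZeta s = 0 ∧ 0 < s.re ∧ s.re < 1 ∧ 0 < s.im ∧ s.im ≤ t}, zmult s

/-- for `n ≥ 1`: the `n`-th positive ordinate `γ n` of a nontrivial zero of `ζ`, the ordinates being
listed in nondecreasing order and repeated according to multiplicity -/
noncomputable def γ (n : ℕ) : ℝ := sInf {t : ℝ | n ≤ NZ t}

/-- the unfolded ordinates -/
noncomputable def y (n : ℕ) : ℝ := γ n * Real.log (γ n) / (2 * Real.pi)

/-- the normalised spacings -/
noncomputable def x (n : ℕ) : ℝ := y (n + 1) - y n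

/-- **Theorem** (no hypothesis).  For all `k ≥ 1` and `Λ ≥ 0` there is `ε > 0` such that for all
large `N` and every `f : ℝ → ℝ` which is nondecreasing (continuous or not), or nonincreasing with
Lipschitz constant at most `Λ`, one has `|x_{n+k} - f (x_n)| ≥ ε` for at least `ε N` of the
`n ≤ N`. -/
theorem result :
    ∀ k : ℕ, 1 ≤ k → ∀ Λ : ℝ, 0 ≤ Λ → ∃ ε : ℝ, 0 < ε ∧ ∀ᶠ N : ℕ in atTop, ∀ f : ℝ → ℝ,
      (Monotone f ∨ (Antitone f ∧ ∀ s t : ℝ, |f s - f t| ≤ Λ * |s - t|)) →
      ε * N ≤ ({n : ℕ | 1 ≤ n ∧ n ≤ N ∧ ε ≤ |x (n + k) - f (x n)|}.ncard : ℝ) := by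
  classical
  have key : ∀ (N : ℕ) (p : ℕ → Prop) [DecidablePred p],
      {n : ℕ | 1 ≤ n ∧ n ≤ N ∧ p n}.ncard = ((Icc 1 N).filter p).card := by
    intro N p _
    rw [← Set.ncard_coe_finset]
    congr 1
    ext n
    simp [and_assoc]
  have mon : ∀ (k N : ℕ) (f : ℝ → ℝ) (a b : ℝ), a ≤ b →
      b * N ≤ ({n : ℕ | 1 ≤ n ∧ n ≤ N ∧ b ≤ |x (n + k) - f (x n)|}.ncard : ℝ) →
      a * N ≤ ({n : ℕ | 1 ≤ n ∧ n ≤ N ∧ a ≤ |x (n + k) - f (x n)|}.ncard : ℝ) := by
    intro k N f a b hab h
    have h1 : a * N ≤ b * N := mul_le_mul_of_nonneg_right hab (Nat.cast_nonneg N)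
    refine h1.trans (h.trans ?_)
    have h2 : {n : ℕ | 1 ≤ n ∧ n ≤ N ∧ b ≤ |x (n + k) - f (x n)|} ⊆
        {n : ℕ | 1 ≤ n ∧ n ≤ N ∧ a ≤ |x (n + k) - f (x n)|} :=
      fun n hn => ⟨hn.1, hn.2.1, hab.trans hn.2.2⟩
    have h3 : {n : ℕ | 1 ≤ n ∧ n ≤ N ∧ a ≤ |x (n + k) - f (x n)|}.Finite :=
      (Set.finite_Iic N).subset fun n hn => hn.2.1
    exact_mod_cast Set.ncard_le_ncard h2 h3
  intro k hk Λ hΛ
  obtain ⟨ε, hε, h⟩ := Pool.Agent.X112.GS.mono k hk
  obtain ⟨η, hη, h'⟩ := Pool.Agent.X112.GS.anti k hk Λ hΛ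
  refine ⟨min ε η, lt_min hε hη, ?_⟩
  filter_upwards [h, h'] with N hN hN' f hf
  rcases hf with hf | ⟨hf, hL⟩
  · refine mon k N f _ ε (min_le_left _ _) ?_
    rw [key N (fun n => ε ≤ |x (n + k) - f (x n)|)]
    exact hN f hf
  · refine mon k N f _ η (min_le_right _ _) ?_
    rw [key N (fun n => η ≤ |x (n + k) - f (x n)|)]
    exact hN' f hf hL

end Pool.Agent.Results.MP_67227b_nt.NoMonotonePrediction
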